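import Pool.Agent.L0h98.KC.Def

/-! KC/BLO: balanced words against all words. -/

set_option autoImplicit false

namespace Pool.Agent.L0h28.KC

open Finset Classical
open Pool.Agent.N404.LF (cnt)
open Pool.Agent.L0h98.KC

section blo

variable {S : Type} {M : S → ℕ}

theorem cnt_tf {m : ℕ} (u : Fin m → Bool) : cnt u true + cnt u false = m := by
  unfold cnt
  rw [card_filter, card_filter, ← Finset.sum_add_distrib]
  refine (Finset.sum_congr rfl fun x _ => (?_ : _ = 1)).trans (by simp)
  cases u x <;> simp

/-- the numbers of `true` -/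
noncomputable def ta (u : ∀ s, Fin (M s) → Bool) : ∀ s, Fin (M s + 1) :=
  fun s => ⟨cnt (u s) true, by have := cnt_tf (u s); omega⟩

/-- the word composed of two halves -/
def app (p : (∀ s, Fin (M s) → Bool) × (∀ s, Fin (M s) → Bool)) : ∀ s, Fin (M s) × Bool → Bool :=
  fun s q => if q.2 = true then !(p.2 s q.1) else p.1 s q.1

theorem app_inj : Function.Injective (app (M := M)) := by
  intro p q h
  apply Prod.ext
  · funext s l
    have := congrFun (congrFun h s) (l, false)
    simpa [app] using this
  · funext s l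
    have := congrFun (congrFun h s) (l, true)
    simpa [app] using this

theorem cnt_app (p : (∀ s, Fin (M s) → Bool) × (∀ s, Fin (M s) → Bool)) (h : ta p.1 = ta p.2)
    (s : S) : cnt (app p s) true = M s := by
  have h1 : cnt (p.1 s) true = cnt (p.2 s) true := congrArg Fin.val (congrFun h s)
  have h2 := cnt_tf (p.2 s)
  have h3 : cnt (app p s) true = cnt (p.1 s) true + cnt (p.2 s) false := by
    unfold cnt
    rw [card_filter, card_filter, card_filter, Fintype.sum_prod_type, ← Finset.sum_add_distrib]
    refine Finset.sum_congr rfl fun l _ => ?_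
    rw [Fintype.sum_bool]
    unfold app
    cases p.2 s l <;> cases p.1 s l <;> simp
  omega

end blo

theorem t_BLO : S_BLO := by
  intro S _ _ M F hF hs
  set g : (∀ s, Fin (M s + 1)) → ℝ := fun k =>
    ∑ u ∈ univ.filter (fun u : ∀ s, Fin (M s) → Bool => ta u = k), F u with hg
  have h1 : ∑ k, g k = ∑ u, F u := sum_fiberwise univ ta F
  have h2 : (∑ k, g k) ^ 2 ≤ (∏ s, ((M s : ℝ) + 1)) * ∑ k, g k ^ 2 := by
    have h3 := sq_sum_le_card_mul_sum_sq (s := (univ : Finset (∀ s, Fin (M s + 1)))) (f := g)
    rw [card_univ, Fintype.card_pi] at h3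
    simp only [Fintype.card_fin] at h3
    push_cast at h3
    exact h3
  have h3 : ∑ k, g k ^ 2 = ∑ p ∈ univ.filter
      (fun p : (∀ s, Fin (M s) → Bool) × (∀ s, Fin (M s) → Bool) => ta p.1 = ta p.2),
        F p.1 * F p.2 := by
    have h4 : ∀ k, g k ^ 2 = ∑ u ∈ univ.filter (fun u : ∀ s, Fin (M s) → Bool => ta u = k),
        F u * g (ta u) := by
      intro k
      rw [sq]
      conv_lhs => rw [hg]
      rw [sum_mul]
      refine sum_congr rfl fun u hu => ?_
      rw [mem_filter] at hu
      rw [hu.2]
    rw [sum_congr rfl fun k _ => h4 k, sum_fiberwise univ ta fun u => F u * g (ta u)]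
    rw [sum_filter, Fintype.sum_prod_type]
    refine sum_congr rfl fun u _ => ?_
    rw [hg]
    dsimp only
    rw [sum_filter, mul_sum]
    refine sum_congr rfl fun u' _ => ?_
    by_cases h5 : ta u' = ta u
    · rw [if_pos h5, if_pos h5.symm]
    · rw [if_neg h5, if_neg (fun h => h5 h.symm), mul_zero]
  have h4 : ∑ p ∈ univ.filter
      (fun p : (∀ s, Fin (M s) → Bool) × (∀ s, Fin (M s) → Bool) => ta p.1 = ta p.2),
        F p.1 * F p.2 ≤
      ∑ w ∈ univ.filter (fun w : ∀ s, Fin (M s) × Bool → Bool => ∀ s, cnt (w s) true = M s),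
        F (fun s l => w s (l, false)) * F (fun s l => w s (l, true)) := by
    have h5 : ∀ p : (∀ s, Fin (M s) → Bool) × (∀ s, Fin (M s) → Bool), F p.1 * F p.2 =
        F (fun s l => app p s (l, false)) * F (fun s l => app p s (l, true)) := by
      intro p
      have e1 : (fun s l => app p s (l, false)) = p.1 := by
        funext s l
        simp [app]
      have e2 : (fun s l => app p s (l, true)) = fun s l => !(p.2 s l) := by
        funext s l
        simp [app]
      rw [e1, e2, hs]
    rw [sum_congr rfl fun p _ => h5 p, ← sum_image (f := fun w : ∀ s, Fin (M s) × Bool → Bool =>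
        F (fun s l => w s (l, false)) * F (fun s l => w s (l, true)))
      (g := app (M := M)) (fun p _ q _ h => app_inj h)]
    apply sum_le_sum_of_subset_of_nonneg
    · intro w hw
      rw [mem_image] at hw
      obtain ⟨p, hp, rfl⟩ := hw
      rw [mem_filter] at hp
      rw [mem_filter]
      exact ⟨mem_univ _, fun j => cnt_app p hp.2 j⟩
    · intro w _ _
      exact mul_nonneg (hF _) (hF _)
  rw [← h1]
  refine h2.trans (mul_le_mul_of_nonneg_left ?_ (Finset.prod_nonneg fun s _ => by positivity))
  rw [h3]
  exact h4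

end Pool.Agent.L0h28.KC
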