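import Pool.Agent.L0h28.KC.HTY

/-! KC/BTY: the number of the signings that are balanced on every type. -/

set_option autoImplicit false

namespace Pool.Agent.L0h28.KC

open Finset Classical
open Pool.Agent.N404.LF (cnt)
open Pool.Agent.L0h98.KC

theorem card_bool (X : Type) [Fintype X] [DecidableEq X] (m : ℕ) :
    (univ.filter fun u : X → Bool => (univ.filter fun a => u a = true).card = m).card =
      (Fintype.card X).choose m := by
  have h3 : (Fintype.card X).choose m = (powersetCard m (univ : Finset X)).card := by
    rw [card_powersetCard, card_univ]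
  rw [h3]
  refine Finset.card_bij (fun z _ => univ.filter fun a => z a = true) ?_ ?_ ?_
  · intro z hz
    rw [mem_powersetCard]
    exact ⟨subset_univ _, (mem_filter.1 hz).2⟩
  · intro z _ z' _ hzz
    funext a
    have h4 : (a ∈ univ.filter fun a => z a = true) ↔ (a ∈ univ.filter fun a => z' a = true) := by
      rw [hzz]
    simp only [mem_filter, mem_univ, true_and] at h4
    exact Bool.eq_iff_iff.2 h4
  · intro S hS
    rw [mem_powersetCard] at hS
    refine ⟨fun a => decide (a ∈ S), ?_, ?_⟩
    · rw [mem_filter]
      refine ⟨mem_univ _, ?_⟩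
      rw [← hS.2]
      congr 1
      ext a
      simp
    · ext a
      simp

theorem central (M : ℕ) : 2 ^ (2 * M) ≤ (2 * M + 1) * (2 * M).choose M := by
  have h5 : 2 ^ (2 * M) = ∑ m ∈ range (2 * M + 1), (2 * M).choose m :=
    (Nat.sum_range_choose (2 * M)).symm
  rw [h5]
  calc ∑ m ∈ range (2 * M + 1), (2 * M).choose m
      ≤ ∑ _m ∈ range (2 * M + 1), (2 * M).choose M :=
        Finset.sum_le_sum fun m _ => Nat.choose_le_centralBinom m M
    _ = _ := by rw [Finset.sum_const, Finset.card_range, smul_eq_mul]

theorem t_BTY : S_BTY := by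
  intro V T _ _ ty hev
  have h1 := t_FUB V T Bool ty (fun t u =>
    if 2 * (univ.filter fun q : {v : V // ty v = t} => u q = true).card = cnt ty t
      then (1 : ℝ) else 0)
  have h2 : ((univ.filter fun x : V → Bool =>
      ∀ t, 2 * (univ.filter fun v => ty v = t ∧ x v = true).card = cnt ty t).card : ℝ) =
      ∑ x : V → Bool, ∏ t, if 2 * (univ.filter fun q : {v : V // ty v = t} =>
        x q.1 = true).card = cnt ty t then (1 : ℝ) else 0 := by
    rw [Finset.card_filter, Nat.cast_sum]
    refine Finset.sum_congr rfl fun x _ => ?_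
    have h3 : ∀ t, (univ.filter fun v => ty v = t ∧ x v = true).card =
        (univ.filter fun q : {v : V // ty v = t} => x q.1 = true).card := by
      intro t
      symm
      refine Finset.card_bij (fun q _ => q.1) ?_ ?_ ?_
      · intro q hq
        exact Finset.mem_filter.2 ⟨Finset.mem_univ _, q.2, (Finset.mem_filter.1 hq).2⟩
      · intro q _ q' _ h
        exact Subtype.ext h
      · intro v hv
        have hv' := (Finset.mem_filter.1 hv).2
        exact ⟨⟨v, hv'.1⟩, Finset.mem_filter.2 ⟨Finset.mem_univ _, hv'.2⟩, rfl⟩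
    by_cases h4 : ∀ t, 2 * (univ.filter fun v => ty v = t ∧ x v = true).card = cnt ty t
    · rw [if_pos h4, Nat.cast_one]
      symm
      apply Finset.prod_eq_one
      intro t _
      rw [if_pos]
      rw [← h3 t]
      exact h4 t
    · rw [if_neg h4, Nat.cast_zero]
      symm
      push Not at h4
      obtain ⟨t, ht⟩ := h4
      apply Finset.prod_eq_zero (Finset.mem_univ t)
      rw [if_neg]
      rw [← h3 t]
      exact ht
  rw [h2, h1]
  have h5 : ∀ t, (2 : ℝ) ^ cnt ty t ≤ ((cnt ty t : ℝ) + 1) * ∑ u : {v : V // ty v = t} → Bool,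
      if 2 * (univ.filter fun q : {v : V // ty v = t} => u q = true).card = cnt ty t
        then (1 : ℝ) else 0 := by
    intro t
    obtain ⟨m, hm⟩ := hev t
    have h6 := card_bool {v : V // ty v = t} m
    rw [card_fib, hm, ← two_mul] at h6
    have h7 : (∑ u : {v : V // ty v = t} → Bool,
        if 2 * (univ.filter fun q : {v : V // ty v = t} => u q = true).card = cnt ty t
          then (1 : ℝ) else 0) = (((2 * m).choose m : ℕ) : ℝ) := by
      rw [← h6, Finset.card_filter, Nat.cast_sum]
      refine Finset.sum_congr rfl fun u _ => ?_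
      rw [hm]
      by_cases h8 : (univ.filter fun q : {v : V // ty v = t} => u q = true).card = m
      · rw [if_pos (by omega), if_pos h8, Nat.cast_one]
      · rw [if_neg (by omega), if_neg h8, Nat.cast_zero]
    rw [h7, hm, ← two_mul]
    exact_mod_cast central m
  calc (2 : ℝ) ^ Fintype.card V = ∏ t, (2 : ℝ) ^ cnt ty t := by
        rw [Finset.prod_pow_eq_pow_sum, sum_cnt_nat]
    _ ≤ ∏ t, (((cnt ty t : ℝ) + 1) * ∑ u : {v : V // ty v = t} → Bool,
        if 2 * (univ.filter fun q : {v : V // ty v = t} => u q = true).card = cnt ty t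
          then (1 : ℝ) else 0) :=
        Finset.prod_le_prod (fun t _ => by positivity) fun t _ => h5 t
    _ = (∏ t, ((cnt ty t : ℝ) + 1)) * ∏ t, ∑ u : {v : V // ty v = t} → Bool,
        (if 2 * (univ.filter fun q : {v : V // ty v = t} => u q = true).card = cnt ty t
          then (1 : ℝ) else 0) := Finset.prod_mul_distrib
    _ ≤ _ := by
        refine mul_le_mul_of_nonneg_right (prod_le ty) (Finset.prod_nonneg fun t _ =>
          Finset.sum_nonneg fun u _ => ?_)
        split_ifs <;> norm_num

end Pool.Agent.L0h28.KC
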