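import Pool.Agent.L0h98.KC.Def

/-! KC/FUB: words and rows. -/

set_option autoImplicit false

namespace Pool.Agent.L0h28.KC

open Finset Classical
open Pool.Agent.L0h98.KC

theorem t_FUB : S_FUB := by
  intro Q R T _ _ _ ρ W
  have h1 := Finset.prod_univ_sum (R := ℝ) (ι := R) (κ := fun r => {q : Q // ρ q = r} → T)
    (fun _ => Finset.univ) (fun r u => W r u)
  rw [h1, Fintype.piFinset_univ]
  refine Fintype.sum_equiv
    ⟨fun w r q => w q.1, fun p q => p (ρ q) ⟨q, rfl⟩, fun w => rfl, fun p => ?_⟩ _ _ fun w => rfl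
  funext r q
  obtain ⟨q, rfl⟩ := q
  rfl

end Pool.Agent.L0h28.KC
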