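import Pool.Agent.L0h28.KC.FUB
import Pool.Agent.N495.KL_HOEF

/-! KC/HTY: the sum over the signings, weighted by the overlaps on the types. -/

set_option autoImplicit false

namespace Pool.Agent.L0h28.KC

open Finset Classical
open Pool.Agent.N404.LF (cnt)
open Pool.Agent.N404.KL (sg)
open Pool.Agent.L0h98.KC

/-- the sum over one type -/
theorem hoef_type (X : Type) [Fintype X] [DecidableEq X] (x : X → Bool) :
    ∑ y : X → Bool, Real.exp ((∑ a, sg (x a) * sg (y a)) ^ 2 / (2 * (Fintype.card X : ℝ))) ≤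
      ((Fintype.card X : ℝ) + 1) * 2 ^ Fintype.card X := by
  have h := Pool.Agent.N495.KL_HOEF.main (Fintype.card X) (fun i => x ((Fintype.equivFin X).symm i))
  refine le_trans (le_of_eq ?_) h
  refine Fintype.sum_equiv ((Fintype.equivFin X).arrowCongr (Equiv.refl Bool)) _ _ fun y => ?_
  congr 3
  refine Fintype.sum_equiv (Fintype.equivFin X) _ _ fun a => ?_
  simp

theorem card_fib {V T : Type} [Fintype V] (ty : V → T) (t : T) :
    Fintype.card {v : V // ty v = t} = cnt ty t := by
  unfold cnt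
  rw [Fintype.card_subtype]

theorem sum_fib {V T : Type} [Fintype V] (ty : V → T) (t : T) (z : V → ℝ) :
    ∑ v ∈ univ.filter (fun v => ty v = t), z v = ∑ v : {v : V // ty v = t}, z v := by
  exact Finset.sum_subtype _ (fun v => by simp) z

theorem sum_cnt_nat {V T : Type} [Fintype V] [Fintype T] (ty : V → T) :
    ∑ t, cnt ty t = Fintype.card V := by
  unfold cnt
  rw [← Finset.card_univ, Finset.card_eq_sum_card_fiberwise (f := ty) (t := univ)
    (fun v _ => Finset.mem_univ _)]

theorem prod_le {V T : Type} [Fintype V] [Fintype T] (ty : V → T) :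
    ∏ t, ((cnt ty t : ℝ) + 1) ≤ ((Fintype.card V : ℝ) + 1) ^ Fintype.card T := by
  rw [← Finset.card_univ (α := T), ← Finset.prod_const]
  refine Finset.prod_le_prod (fun t _ => by positivity) fun t _ => ?_
  have h : cnt ty t ≤ Fintype.card V := by
    rw [← sum_cnt_nat ty]
    exact Finset.single_le_sum (f := fun t => cnt ty t) (fun _ _ => Nat.zero_le _)
      (Finset.mem_univ t)
  have h' : (cnt ty t : ℝ) ≤ Fintype.card V := by exact_mod_cast h
  linarith

theorem t_HTY : S_HTY := by
  intro V T _ _ ty x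
  have h1 := t_FUB V T Bool ty (fun t u => Real.exp
    ((∑ q : {v : V // ty v = t}, sg (x q.1) * sg (u q)) ^ 2 / (2 * (cnt ty t : ℝ))))
  have h2 : ∀ y : V → Bool, Real.exp (∑ t, (∑ v ∈ univ.filter (fun v => ty v = t),
      sg (x v) * sg (y v)) ^ 2 / (2 * (cnt ty t : ℝ))) =
      ∏ t, Real.exp ((∑ q : {v : V // ty v = t}, sg (x q.1) * sg (y q.1)) ^ 2 /
        (2 * (cnt ty t : ℝ))) := by
    intro y
    rw [Real.exp_sum]
    refine Finset.prod_congr rfl fun t _ => ?_
    rw [sum_fib ty t (fun v => sg (x v) * sg (y v))]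
  rw [Finset.sum_congr rfl fun y _ => h2 y, h1]
  calc ∏ t, ∑ u : {v : V // ty v = t} → Bool, Real.exp
        ((∑ q : {v : V // ty v = t}, sg (x q.1) * sg (u q)) ^ 2 / (2 * (cnt ty t : ℝ)))
      ≤ ∏ t, (((cnt ty t : ℝ) + 1) * 2 ^ cnt ty t) := by
        refine Finset.prod_le_prod (fun t _ => Finset.sum_nonneg fun _ _ => (Real.exp_pos _).le)
          fun t _ => ?_
        have h := hoef_type {v : V // ty v = t} (fun q => x q.1)
        rw [card_fib] at h
        exact h
    _ = (∏ t, ((cnt ty t : ℝ) + 1)) * 2 ^ Fintype.card V := by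
        rw [Finset.prod_mul_distrib, Finset.prod_pow_eq_pow_sum, sum_cnt_nat]
    _ ≤ _ := mul_le_mul_of_nonneg_right (prod_le ty) (by positivity)

end Pool.Agent.L0h28.KC
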