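import Pool.Agent.L0h98.KC.Def

/-! KC/JEN: Jensen's inequality for the overlaps. -/

set_option autoImplicit false

namespace Pool.Agent.L0h28.KC

open Finset Classical
open Pool.Agent.N404.LF (cnt)
open Pool.Agent.L0h98.KC

theorem cnt_eq {X A : Type} [Fintype X] (f : X → A) (a : A) :
    (cnt f a : ℝ) = ∑ x : X, if f x = a then (1 : ℝ) else 0 := by
  unfold cnt
  rw [Finset.card_filter, Nat.cast_sum]
  exact Finset.sum_congr rfl fun x _ => by split_ifs <;> simp

/-- sums over the fibers -/
theorem sum_cnt {X A : Type} [Fintype X] [Fintype A] (f : X → A) (z : A → ℝ) :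
    ∑ x, z (f x) = ∑ a, (cnt f a : ℝ) * z a := by
  have h : ∀ a, (cnt f a : ℝ) * z a = ∑ x : X, (if f x = a then (1 : ℝ) else 0) * z a := fun a => by
    rw [cnt_eq, Finset.sum_mul]
  rw [Finset.sum_congr rfl fun a _ => h a, Finset.sum_comm]
  refine Finset.sum_congr rfl fun x _ => ?_
  rw [Finset.sum_eq_single (f x)]
  · simp
  · intro a _ ha
    rw [if_neg (fun h => ha h.symm), zero_mul]
  · intro h
    exact absurd (Finset.mem_univ _) h

theorem sum_ty {V T : Type} [Fintype V] [Fintype T] (ty : V → T) (c : T → ℝ) (z : V → ℝ) :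
    ∑ v, c (ty v) * z v = ∑ t, c t * ∑ v ∈ univ.filter (fun v => ty v = t), z v := by
  have h : ∀ t, c t * ∑ v ∈ univ.filter (fun v => ty v = t), z v =
      ∑ v ∈ univ.filter (fun v => ty v = t), c (ty v) * z v := by
    intro t
    rw [Finset.mul_sum]
    refine Finset.sum_congr rfl fun v hv => ?_
    rw [(Finset.mem_filter.1 hv).2]
  rw [Finset.sum_congr rfl fun t _ => h t]
  exact (Finset.sum_fiberwise univ ty fun v => c (ty v) * z v).symm

theorem t_JEN : S_JEN := by
  intro S V T _ _ _ X _ b ty c val z hc h1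
  set Z : T → ℝ := fun t => ∑ v ∈ univ.filter (fun v => ty v = t), z v with hZ
  have hn : ∀ t, (cnt ty t : ℝ) = ∑ v ∈ univ.filter (fun v => ty v = t), (1 : ℝ) := by
    intro t
    unfold cnt
    simp
  have hs : ∀ s, (∑ p, z (b s p)) ^ 2 / Fintype.card (X s) ≤
      ∑ t, (c t s : ℝ) * (Z t ^ 2 / (cnt ty t : ℝ)) := by
    intro s
    have e1 : ∑ p, z (b s p) = ∑ t, (c t s : ℝ) * Z t := by
      rw [sum_cnt (b s) z, Finset.sum_congr rfl fun v _ => by rw [hc v s]]
      exact sum_ty ty (fun t => (c t s : ℝ)) z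
    have e2 : (Fintype.card (X s) : ℝ) = ∑ t, (c t s : ℝ) * (cnt ty t : ℝ) := by
      have h := sum_cnt (b s) (fun _ => (1 : ℝ))
      rw [Finset.sum_const, Finset.card_univ, nsmul_eq_mul, mul_one] at h
      rw [h, Finset.sum_congr rfl fun v _ => by rw [hc v s]]
      rw [sum_ty ty (fun t => (c t s : ℝ)) (fun _ => (1 : ℝ))]
      exact Finset.sum_congr rfl fun t _ => by rw [hn t]
    have e3 : (∑ t, (c t s : ℝ) * Z t) ^ 2 ≤
        (∑ t, (c t s : ℝ) * (cnt ty t : ℝ)) * ∑ t, (c t s : ℝ) * (Z t ^ 2 / (cnt ty t : ℝ)) := by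
      apply Finset.sum_sq_le_sum_mul_sum_of_sq_le_mul
      · intro t _
        positivity
      · intro t _
        positivity
      · intro t _
        apply le_of_eq
        by_cases h0 : cnt ty t = 0
        · have hz : Z t = 0 := by
            have : univ.filter (fun v => ty v = t) = ∅ := by
              have h := h0
              unfold cnt at h
              exact Finset.card_eq_zero.1 h
            rw [hZ]
            dsimp only
            rw [this, Finset.sum_empty]
          rw [hz, h0]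
          simp
        · have : (cnt ty t : ℝ) ≠ 0 := by exact_mod_cast h0
          field_simp
    rw [e1, e2]
    have e4 : 0 ≤ ∑ t, (c t s : ℝ) * (cnt ty t : ℝ) := Finset.sum_nonneg fun t _ => by positivity
    have e5 : 0 ≤ ∑ t, (c t s : ℝ) * (Z t ^ 2 / (cnt ty t : ℝ)) :=
      Finset.sum_nonneg fun t _ => by positivity
    rcases e4.eq_or_lt with h0 | h0
    · rw [← h0, div_zero]
      exact e5
    · rw [div_le_iff₀ h0, mul_comm (∑ t, (c t s : ℝ) * (Z t ^ 2 / (cnt ty t : ℝ)))]
      exact e3
  calc ∑ s, val s ^ 2 * ((∑ p, z (b s p)) ^ 2 / Fintype.card (X s))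
      ≤ ∑ s, val s ^ 2 * ∑ t, (c t s : ℝ) * (Z t ^ 2 / (cnt ty t : ℝ)) :=
        Finset.sum_le_sum fun s _ => mul_le_mul_of_nonneg_left (hs s) (sq_nonneg _)
    _ = ∑ t, (∑ s, (c t s : ℝ) * val s ^ 2) * (Z t ^ 2 / (cnt ty t : ℝ)) := by
        simp_rw [Finset.mul_sum, Finset.sum_mul]
        rw [Finset.sum_comm]
        exact Finset.sum_congr rfl fun t _ => Finset.sum_congr rfl fun s _ => by ring
    _ ≤ ∑ t, Z t ^ 2 / (cnt ty t : ℝ) := by
        refine Finset.sum_le_sum fun t _ => ?_
        by_cases h0 : cnt ty t = 0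
        · rw [h0]
          simp
        · obtain ⟨v, hv⟩ : (univ.filter fun v => ty v = t).Nonempty := by
            rw [← Finset.card_pos]
            have h := h0
            unfold cnt at h
            exact Nat.pos_of_ne_zero h
          have hv' := (Finset.mem_filter.1 hv).2
          have h2 := h1 v
          rw [hv'] at h2
          exact mul_le_of_le_one_left (by positivity) h2

end Pool.Agent.L0h28.KC
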